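import Pool.Agent.Helper50.VD.St

open MeasureTheory Set Filter Topology
open scoped ENNReal

noncomputable section

namespace VD.M_E2

/-- half logarithm -/
def L (c v : ℝ) : ℝ := Real.log (c ^ 2 + v ^ 2) / 2

/-- the one dimensional kernel -/
def E (c A B p : ℝ) : ℝ := (p * (p + c) + A * B) / ((p ^ 2 + A ^ 2) * ((p + c) ^ 2 + B ^ 2))

/-- value of the inner integral -/
def J (c A B : ℝ) : ℝ := Real.pi * (Real.sign A + Real.sign B) * (A + B) / (c ^ 2 + (A + B) ^ 2)

/-- antiderivative of the inner integral -/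
def Ph (c a b t : ℝ) : ℝ :=
  Real.pi * (L c (2 * max t (max a b) - (a + b)) - L c (2 * min t (min a b) - (a + b)))

theorem L_neg (c v : ℝ) : L c (-v) = L c v := by unfold L; rw [neg_sq]

theorem L_hasDeriv (c a b t : ℝ) (h : c ^ 2 + (2 * t - (a + b)) ^ 2 ≠ 0) :
    HasDerivAt (fun t => L c (2 * t - (a + b)))
      (2 * (2 * t - (a + b)) / (c ^ 2 + (2 * t - (a + b)) ^ 2)) t := by
  unfold L
  have h1 : HasDerivAt (fun t : ℝ => 2 * t - (a + b)) 2 t := by
    simpa using ((hasDerivAt_id t).const_mul 2).sub_const (a + b)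
  have h2 : HasDerivAt (fun t : ℝ => c ^ 2 + (2 * t - (a + b)) ^ 2)
      (2 * (2 * t - (a + b)) * 2) t := by
    have := (h1.pow 2).const_add (c ^ 2)
    refine this.congr_deriv ?_
    simp
  have h3 := (h2.log h).div_const 2
  refine h3.congr_deriv ?_
  field_simp

theorem Ph_cont (c a b : ℝ) (h : c ≠ 0 ∨ a ≠ b) : Continuous (Ph c a b) := by
  unfold Ph L
  have hmax : max a b * 2 - (a + b) = |a - b| := by
    rcases le_total a b with hab | hab
    · rw [max_eq_right hab, abs_of_nonpos (by linarith)]; ring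
    · rw [max_eq_left hab, abs_of_nonneg (by linarith)]; ring
  have hmin : min a b * 2 - (a + b) = -|a - b| := by
    rcases le_total a b with hab | hab
    · rw [min_eq_left hab, abs_of_nonpos (by linarith)]; ring
    · rw [min_eq_right hab, abs_of_nonneg (by linarith)]; ring
  refine continuous_const.mul (Continuous.sub ?_ ?_)
  · refine (Continuous.log (by fun_prop) fun t => ?_).div_const 2
    have h1 : |a - b| ≤ 2 * max t (max a b) - (a + b) := by
      have := le_max_right t (max a b); linarith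
    rcases h with hc | hab
    · have : 0 < c ^ 2 := by positivity
      positivity
    · have h2 : 0 < |a - b| := abs_pos.2 (sub_ne_zero.2 hab)
      have h3 : 0 < 2 * max t (max a b) - (a + b) := by linarith
      positivity
  · refine (Continuous.log (by fun_prop) fun t => ?_).div_const 2
    have h1 : 2 * min t (min a b) - (a + b) ≤ -|a - b| := by
      have := min_le_right t (min a b); linarith
    rcases h with hc | hab
    · have : 0 < c ^ 2 := by positivity
      positivity
    · have h2 : 0 < |a - b| := abs_pos.2 (sub_ne_zero.2 hab)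
      have h3 : 2 * min t (min a b) - (a + b) < 0 := by linarith
      have h5 := h3.ne
      have h4 : 0 < (2 * min t (min a b) - (a + b)) ^ 2 := by positivity
      positivity

theorem Ph_deriv (c a b t : ℝ) (h : c ≠ 0 ∨ a ≠ b) (ha : t ≠ a) (hb : t ≠ b) :
    HasDerivAt (Ph c a b) (J c (t - a) (t - b)) t := by
  wlog hab : a ≤ b with H
  · have h1 := H c b a t (by rcases h with h | h; exacts [Or.inl h, Or.inr (Ne.symm h)]) hb ha
      (le_of_not_ge hab)
    have h2 : Ph c b a = Ph c a b := by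
      funext s; unfold Ph; rw [max_comm b a, min_comm b a, add_comm b a]
    have h3 : J c (t - b) (t - a) = J c (t - a) (t - b) := by
      unfold J; rw [add_comm (Real.sign (t - b)), add_comm (t - b)]
    rwa [h2, h3] at h1
  · rcases lt_or_gt_of_ne ha with hta | hta
    · -- left of both
      have htb : t < b := lt_of_lt_of_le hta hab
      have hne : c ^ 2 + (2 * t - (a + b)) ^ 2 ≠ 0 := by
        have h6 : 2 * t - (a + b) ≠ 0 := by
          have : 2 * t - (a + b) < 0 := by linarith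
          exact this.ne
        have h7 : 0 < (2 * t - (a + b)) ^ 2 := by positivity
        positivity
      have hev : Ph c a b =ᶠ[𝓝 t] fun s =>
          Real.pi * (L c (2 * max a b - (a + b)) - L c (2 * s - (a + b))) := by
        filter_upwards [Iio_mem_nhds hta] with s hs
        have hs' : s < a := hs
        unfold Ph
        rw [min_eq_left hab, max_eq_right hab, min_eq_left hs'.le,
          max_eq_right (hs'.le.trans hab)]
      refine HasDerivAt.congr_of_eventuallyEq ?_ hev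
      have h1 := ((L_hasDeriv c a b t hne).const_sub (L c (2 * max a b - (a + b)))).const_mul
        Real.pi
      refine h1.congr_deriv ?_
      unfold J
      rw [Real.sign_of_neg (by linarith), Real.sign_of_neg (by linarith)]
      have h2 : (t - a) + (t - b) = 2 * t - (a + b) := by ring
      rw [h2]
      ring
    · rcases lt_or_gt_of_ne hb with htb | htb
      · -- between
        have hev : Ph c a b =ᶠ[𝓝 t] fun _ =>
            Real.pi * (L c (2 * max a b - (a + b)) - L c (2 * min a b - (a + b))) := by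
          filter_upwards [Ioo_mem_nhds hta htb] with s hs
          unfold Ph
          rw [min_eq_left hab, max_eq_right hab, min_eq_right hs.1.le, max_eq_right hs.2.le]
        refine HasDerivAt.congr_of_eventuallyEq ?_ hev
        have h1 := hasDerivAt_const t
          (Real.pi * (L c (2 * max a b - (a + b)) - L c (2 * min a b - (a + b))))
        refine h1.congr_deriv ?_
        unfold J
        rw [Real.sign_of_pos (by linarith), Real.sign_of_neg (by linarith)]
        simp
      · -- right of both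
        have hne : c ^ 2 + (2 * t - (a + b)) ^ 2 ≠ 0 := by
          have : 0 < 2 * t - (a + b) := by linarith
          positivity
        have hev : Ph c a b =ᶠ[𝓝 t] fun s =>
            Real.pi * (L c (2 * s - (a + b)) - L c (2 * min a b - (a + b))) := by
          filter_upwards [Ioi_mem_nhds htb] with s hs
          have hs' : b < s := hs
          unfold Ph
          rw [min_eq_left hab, max_eq_right hab, max_eq_left hs'.le,
            min_eq_right (hab.trans hs'.le)]
        refine HasDerivAt.congr_of_eventuallyEq ?_ hev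
        have h1 := ((L_hasDeriv c a b t hne).sub_const (L c (2 * min a b - (a + b)))).const_mul
          Real.pi
        refine h1.congr_deriv ?_
        unfold J
        rw [Real.sign_of_pos (by linarith), Real.sign_of_pos (by linarith)]
        have h2 : (t - a) + (t - b) = 2 * t - (a + b) := by ring
        rw [h2]
        ring

theorem Ph_diff (c a b M : ℝ) (ha : |a| ≤ M) (hb : |b| ≤ M) :
    Ph c a b M - Ph c a b (-M)
      = Real.pi * (L c (2 * M - (a + b)) + L c (2 * M + (a + b)) - 2 * L c (a - b)) := by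
  obtain ⟨ha1, ha2⟩ := abs_le.1 ha
  obtain ⟨hb1, hb2⟩ := abs_le.1 hb
  unfold Ph
  rw [max_eq_left (max_le ha2 hb2), min_eq_right ((min_le_left a b).trans ha2),
    max_eq_right (ha1.trans (le_max_left a b)), min_eq_left (le_min ha1 hb1)]
  have h1 : L c (2 * min a b - (a + b)) = L c (a - b) := by
    rcases le_total a b with hab | hab
    · rw [min_eq_left hab]; congr 1; ring
    · rw [min_eq_right hab, ← L_neg]; congr 1; ring
  have h2 : L c (2 * max a b - (a + b)) = L c (a - b) := by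
    rcases le_total a b with hab | hab
    · rw [max_eq_right hab, ← L_neg]; congr 1; ring
    · rw [max_eq_left hab]; congr 1; ring
  have h3 : L c (2 * -M - (a + b)) = L c (2 * M + (a + b)) := by
    rw [← L_neg]; congr 1; ring
  rw [h1, h2, h3]
  ring

theorem L_lim (c s : ℝ) : Tendsto (fun M : ℝ => L c (2 * M + s) - Real.log M) atTop
    (𝓝 (Real.log 4 / 2)) := by
  have h1 : Tendsto (fun M : ℝ => (c ^ 2 + (2 * M + s) ^ 2) / M ^ 2) atTop (𝓝 4) := by
    have h2 : Tendsto (fun M : ℝ => c ^ 2 * (M⁻¹) ^ 2 + (2 + s * M⁻¹) ^ 2) atTop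
        (𝓝 (c ^ 2 * 0 ^ 2 + (2 + s * 0) ^ 2)) := by
      have h3 : Tendsto (fun M : ℝ => M⁻¹) atTop (𝓝 0) := tendsto_inv_atTop_zero
      exact ((h3.pow 2).const_mul _).add (((h3.const_mul s).const_add 2).pow 2)
    have h4 : c ^ 2 * 0 ^ 2 + (2 + s * 0) ^ 2 = (4 : ℝ) := by ring
    rw [h4] at h2
    refine h2.congr' ?_
    filter_upwards [eventually_gt_atTop 0] with M hM
    field_simp
  have h5 : Tendsto (fun M : ℝ => Real.log ((c ^ 2 + (2 * M + s) ^ 2) / M ^ 2) / 2) atTop
      (𝓝 (Real.log 4 / 2)) :=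
    ((Real.continuousAt_log (by norm_num)).tendsto.comp h1).div_const 2
  refine h5.congr' ?_
  filter_upwards [eventually_gt_atTop 0, eventually_gt_atTop (-s)] with M hM hM2
  unfold L
  have h6 : 0 < 2 * M + s := by linarith
  rw [Real.log_div (by positivity) (by positivity), Real.log_pow]
  push_cast
  ring

end VD.M_E2

namespace VD

open VD.M_E2

/-- inner product of two vortex pair kernels = 2 G (iterated integral, limit) -/
theorem mE2 (hE1 : StE1) : StE2 := by
  intro y z hy hz hyz hint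
  set c : ℝ := y.1 - z.1 with hc
  set F : ℝ × ℝ → ℝ := fun x => (kap y x).1 * (kap z x).1 + (kap y x).2 * (kap z x).2 with hF
  have hd : c ≠ 0 ∨ y.2 ≠ z.2 := by
    by_contra hcon
    push Not at hcon
    exact hyz (Prod.ext (by have := hcon.1; rw [hc] at this; linarith) hcon.2)
  have hsum : 0 < y.2 + z.2 := by linarith
  -- pointwise formula
  have hpt : ∀ t : ℝ, t ≠ y.2 → t ≠ -y.2 → t ≠ z.2 → t ≠ -z.2 → ∀ x1 : ℝ,
      F (x1, t) = (1 / (4 * Real.pi ^ 2)) *
        (E c (t - y.2) (t - z.2) (x1 - y.1) - E c (t - y.2) (t + z.2) (x1 - y.1)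
          - E c (t + y.2) (t - z.2) (x1 - y.1) + E c (t + y.2) (t + z.2) (x1 - y.1)) := by
    intro t h1 h2 h3 h4 x1
    have p1 : 0 < (t - y.2) ^ 2 := by have := sub_ne_zero.2 h1; positivity
    have p2 : 0 < (t + y.2) ^ 2 := by
      have : t + y.2 ≠ 0 := fun h => h2 (by linarith)
      positivity
    have p3 : 0 < (t - z.2) ^ 2 := by have := sub_ne_zero.2 h3; positivity
    have p4 : 0 < (t + z.2) ^ 2 := by
      have : t + z.2 ≠ 0 := fun h => h4 (by linarith)
      positivity
    have q1 : (x1 - y.1) ^ 2 + (t - y.2) ^ 2 ≠ 0 := by positivity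
    have q2 : (x1 - y.1) ^ 2 + (t + y.2) ^ 2 ≠ 0 := by positivity
    have q3 : (x1 - z.1) ^ 2 + (t - z.2) ^ 2 ≠ 0 := by positivity
    have q4 : (x1 - z.1) ^ 2 + (t + z.2) ^ 2 ≠ 0 := by positivity
    have hpi : Real.pi ≠ 0 := Real.pi_ne_zero
    have e1 : x1 - y.1 + c = x1 - z.1 := by rw [hc]; ring
    simp only [hF, kap, kBS, E, Prod.fst_sub, Prod.snd_sub, sub_neg_eq_add, e1]
    field_simp
    ring
  -- inner integral
  have hgood : ∀ᵐ t : ℝ, t ≠ y.2 ∧ t ≠ -y.2 ∧ t ≠ z.2 ∧ t ≠ -z.2 ∧ 2 * t ≠ y.2 + z.2 ∧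
      2 * t ≠ y.2 - z.2 ∧ 2 * t ≠ -y.2 + z.2 ∧ 2 * t ≠ -y.2 - z.2 := by
    have hfin : ({y.2, -y.2, z.2, -z.2, (y.2 + z.2) / 2, (y.2 - z.2) / 2, (-y.2 + z.2) / 2,
        (-y.2 - z.2) / 2} : Set ℝ).Finite := by simp
    have h0 := (hfin.measure_zero volume)
    have h1 : ∀ᵐ t : ℝ, t ∉ ({y.2, -y.2, z.2, -z.2, (y.2 + z.2) / 2, (y.2 - z.2) / 2,
        (-y.2 + z.2) / 2, (-y.2 - z.2) / 2} : Set ℝ) := measure_eq_zero_iff_ae_notMem.1 h0
    filter_upwards [h1] with t ht
    simp only [mem_insert_iff, mem_singleton_iff, not_or] at ht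
    obtain ⟨a1, a2, a3, a4, a5, a6, a7, a8⟩ := ht
    refine ⟨a1, a2, a3, a4, ?_, ?_, ?_, ?_⟩
    · intro h; exact a5 (by linarith)
    · intro h; exact a6 (by linarith)
    · intro h; exact a7 (by linarith)
    · intro h; exact a8 (by linarith)
  set Jt : ℝ → ℝ := fun t => J c (t - y.2) (t - z.2) - J c (t - y.2) (t - -z.2)
    - J c (t - -y.2) (t - z.2) + J c (t - -y.2) (t - -z.2) with hJt
  have hin : ∀ᵐ t : ℝ, ∫ x1 : ℝ, F (x1, t) = (1 / (4 * Real.pi ^ 2)) * Jt t := by
    filter_upwards [hgood] with t ht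
    obtain ⟨a1, a2, a3, a4, a5, a6, a7, a8⟩ := ht
    have b1 : t - y.2 ≠ 0 := sub_ne_zero.2 a1
    have b2 : t + y.2 ≠ 0 := fun h => a2 (by linarith)
    have b3 : t - z.2 ≠ 0 := sub_ne_zero.2 a3
    have b4 : t + z.2 ≠ 0 := fun h => a4 (by linarith)
    have key : ∀ A B : ℝ, A ≠ 0 → B ≠ 0 → A + B ≠ 0 →
        Integrable (fun x1 : ℝ => E c A B (x1 - y.1)) ∧
        ∫ x1 : ℝ, E c A B (x1 - y.1) = J c A B := by
      intro A B hA hB hAB
      obtain ⟨i1, i2⟩ := hE1 A B c hA hB (Or.inr hAB)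
      refine ⟨?_, ?_⟩
      · exact (Integrable.comp_sub_right (f := E c A B) i1 y.1)
      · rw [integral_sub_right_eq_self (fun p => E c A B p) y.1]
        exact i2
    obtain ⟨k1, l1⟩ := key (t - y.2) (t - z.2) b1 b3 (fun h => a5 (by linarith))
    obtain ⟨k2, l2⟩ := key (t - y.2) (t + z.2) b1 b4 (fun h => a6 (by linarith))
    obtain ⟨k3, l3⟩ := key (t + y.2) (t - z.2) b2 b3 (fun h => a7 (by linarith))
    obtain ⟨k4, l4⟩ := key (t + y.2) (t + z.2) b2 b4 (fun h => a8 (by linarith))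
    have e1 : ∀ x1 : ℝ, F (x1, t) = (1 / (4 * Real.pi ^ 2)) *
        (E c (t - y.2) (t - z.2) (x1 - y.1) - E c (t - y.2) (t + z.2) (x1 - y.1)
          - E c (t + y.2) (t - z.2) (x1 - y.1) + E c (t + y.2) (t + z.2) (x1 - y.1)) :=
      hpt t a1 a2 a3 a4
    simp_rw [e1]
    have k12 : Integrable (fun x1 => E c (t - y.2) (t - z.2) (x1 - y.1)
        - E c (t - y.2) (t + z.2) (x1 - y.1)) := k1.sub k2
    have k123 : Integrable (fun x1 => E c (t - y.2) (t - z.2) (x1 - y.1)
        - E c (t - y.2) (t + z.2) (x1 - y.1) - E c (t + y.2) (t - z.2) (x1 - y.1)) := k12.sub k3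
    rw [integral_const_mul, integral_add k123 k4, integral_sub k12 k3,
      integral_sub k1 k2, l1, l2, l3, l4]
    simp only [hJt, sub_neg_eq_add]
  -- Fubini
  have hint' : Integrable F ((volume : Measure ℝ).prod (volume : Measure ℝ)) := hint
  have hH : Integrable (fun t : ℝ => ∫ x1 : ℝ, F (x1, t)) := hint'.integral_prod_right
  have hfub : ∫ x, F x = ∫ t : ℝ, ∫ x1 : ℝ, F (x1, t) := by
    rw [Measure.volume_eq_prod]
    exact integral_prod_symm _ hint'
  have hJint : Integrable Jt := by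
    have h1 : Jt =ᵐ[volume] fun t => (4 * Real.pi ^ 2) * ∫ x1 : ℝ, F (x1, t) := by
      filter_upwards [hin] with t ht
      rw [ht]
      have hpi : Real.pi ≠ 0 := Real.pi_ne_zero
      field_simp
    exact (hH.const_mul _).congr h1.symm
  have hfub2 : ∫ x, F x = (1 / (4 * Real.pi ^ 2)) * ∫ t, Jt t := by
    rw [hfub, ← integral_const_mul]
    exact integral_congr_ae hin
  -- the outer integral
  have d1 : c ≠ 0 ∨ y.2 ≠ -z.2 := Or.inr (by linarith)
  have d2 : c ≠ 0 ∨ -y.2 ≠ z.2 := Or.inr (by linarith)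
  have d3 : c ≠ 0 ∨ -y.2 ≠ -z.2 := by
    rcases hd with h | h
    · exact Or.inl h
    · exact Or.inr (fun h' => h (neg_inj.1 h'))
  set P : ℝ → ℝ := fun t => Ph c y.2 z.2 t - Ph c y.2 (-z.2) t - Ph c (-y.2) z.2 t
    + Ph c (-y.2) (-z.2) t with hP
  have hPc : Continuous P :=
    (((Ph_cont c _ _ hd).sub (Ph_cont c _ _ d1)).sub (Ph_cont c _ _ d2)).add (Ph_cont c _ _ d3)
  have hPd : ∀ t, t ∉ ({y.2, -y.2, z.2, -z.2} : Set ℝ) → HasDerivAt P (Jt t) t := by
    intro t ht
    simp only [mem_insert_iff, mem_singleton_iff, not_or] at ht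
    obtain ⟨a1, a2, a3, a4⟩ := ht
    exact (((Ph_deriv c _ _ t hd a1 a3).sub (Ph_deriv c _ _ t d1 a1 a4)).sub
      (Ph_deriv c _ _ t d2 a2 a3)).add (Ph_deriv c _ _ t d3 a2 a4)
  have hIM : ∀ M : ℝ, |y.2| ≤ M → |z.2| ≤ M → ∫ t in (-M)..M, Jt t
      = Real.pi * (2 * (L c (2 * M - (y.2 + z.2)) + L c (2 * M + (y.2 + z.2)))
        - 2 * (L c (2 * M - (y.2 - z.2)) + L c (2 * M + (y.2 - z.2)))
        + 4 * (L c (y.2 + z.2) - L c (y.2 - z.2))) := by
    intro M hM1 hM2
    have h1 := integral_eq_of_hasDerivAt_off_countable P Jt (a := -M) (b := M)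
      (s := ({y.2, -y.2, z.2, -z.2} : Set ℝ)) (by
        exact Set.Finite.countable (by simp)) hPc.continuousOn
      (fun t ht => hPd t ht.2) hJint.intervalIntegrable
    rw [h1]
    have n1 : |(-y.2)| ≤ M := by rwa [abs_neg]
    have n2 : |(-z.2)| ≤ M := by rwa [abs_neg]
    have g1 := Ph_diff c y.2 z.2 M hM1 hM2
    have g2 := Ph_diff c y.2 (-z.2) M hM1 n2
    have g3 := Ph_diff c (-y.2) z.2 M n1 hM2
    have g4 := Ph_diff c (-y.2) (-z.2) M n1 n2
    have r1 : L c (y.2 - -z.2) = L c (y.2 + z.2) := by congr 1; ring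
    have r2 : L c (-y.2 - z.2) = L c (y.2 + z.2) := by rw [← L_neg]; congr 1; ring
    have r3 : L c (-y.2 - -z.2) = L c (y.2 - z.2) := by rw [← L_neg]; congr 1; ring
    have s1 : 2 * M - (y.2 + -z.2) = 2 * M - (y.2 - z.2) := by ring
    have s2 : 2 * M + (y.2 + -z.2) = 2 * M + (y.2 - z.2) := by ring
    have s3 : 2 * M - (-y.2 + z.2) = 2 * M + (y.2 - z.2) := by ring
    have s4 : 2 * M + (-y.2 + z.2) = 2 * M - (y.2 - z.2) := by ring
    have s5 : 2 * M - (-y.2 + -z.2) = 2 * M + (y.2 + z.2) := by ring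
    have s6 : 2 * M + (-y.2 + -z.2) = 2 * M - (y.2 + z.2) := by ring
    rw [r1, s1, s2] at g2
    rw [r2, s3, s4] at g3
    rw [r3, s5, s6] at g4
    have g5 : P M - P (-M) = (Ph c y.2 z.2 M - Ph c y.2 z.2 (-M))
        - (Ph c y.2 (-z.2) M - Ph c y.2 (-z.2) (-M))
        - (Ph c (-y.2) z.2 M - Ph c (-y.2) z.2 (-M))
        + (Ph c (-y.2) (-z.2) M - Ph c (-y.2) (-z.2) (-M)) := by
      simp only [hP]; ring
    rw [g5, g1, g2, g3, g4]
    ring
  have hlim1 : Tendsto (fun M : ℝ => ∫ t in (-M)..M, Jt t) atTop (𝓝 (∫ t, Jt t)) :=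
    intervalIntegral_tendsto_integral hJint tendsto_neg_atTop_atBot tendsto_id
  have hlim2 : Tendsto (fun M : ℝ => ∫ t in (-M)..M, Jt t) atTop
      (𝓝 (Real.pi * (4 * (L c (y.2 + z.2) - L c (y.2 - z.2))))) := by
    have t1 := L_lim c (-(y.2 + z.2))
    have t2 := L_lim c (y.2 + z.2)
    have t3 := L_lim c (-(y.2 - z.2))
    have t4 := L_lim c (y.2 - z.2)
    have t5 := ((((t1.add t2).sub t3).sub t4).const_mul 2).add_const
      (4 * (L c (y.2 + z.2) - L c (y.2 - z.2)))
    have t6 := t5.const_mul Real.pi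
    have t7 : Real.pi * (2 * (Real.log 4 / 2 + Real.log 4 / 2 - Real.log 4 / 2 - Real.log 4 / 2)
        + 4 * (L c (y.2 + z.2) - L c (y.2 - z.2)))
        = Real.pi * (4 * (L c (y.2 + z.2) - L c (y.2 - z.2))) := by ring
    rw [t7] at t6
    refine t6.congr' ?_
    filter_upwards [eventually_ge_atTop |y.2|, eventually_ge_atTop |z.2|] with M h1 h2
    rw [hIM M h1 h2]
    have u1 : 2 * M + -(y.2 + z.2) = 2 * M - (y.2 + z.2) := by ring
    have u2 : 2 * M + -(y.2 - z.2) = 2 * M - (y.2 - z.2) := by ring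
    rw [u1, u2]
    ring
  have hval := tendsto_nhds_unique hlim1 hlim2
  rw [hfub2, hval]
  have hpi : Real.pi ≠ 0 := Real.pi_ne_zero
  have w1 : 0 < c ^ 2 + (y.2 + z.2) ^ 2 := by positivity
  have w2 : 0 < c ^ 2 + (y.2 - z.2) ^ 2 := by
    rcases hd with h | h
    · positivity
    · have := sub_ne_zero.2 h
      positivity
  unfold G L
  rw [← hc, Real.log_div w1.ne' w2.ne']
  field_simp
  ring

end VD
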